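import Pool.Agent.MWT.Stmts
import Pool.Agent.Helper21_MVD.PEN
import Pool.Agent.Helper32_MVD.GEN

/-! Row PNT: the pentagon. -/

set_option autoImplicit false

namespace Pool.Agent.MWT.H79

open Pool.Agent.Helper14_MV Pool.Agent.Helper2_MV Pool.Agent.MVD Pool.Agent.MWT

/-- the letter `e` to the power `k` -/
def rp (e k x : ℕ) : List ℕ := if x = e then P k e else [x]

theorem rp_id {e k : ℕ} {l : List ℕ} (h : e ∉ l) : l.flatMap (rp e k) = l := by
  induction l with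
  | nil => rfl
  | cons a l ih =>
    have ha : a ≠ e := fun h' => h (by rw [h']; exact List.mem_cons_self)
    rw [List.flatMap_cons, ih (fun h' => h (List.mem_cons_of_mem _ h'))]
    unfold rp
    rw [if_neg ha]
    rfl

theorem rp_one (e k : ℕ) : (P 1 e).flatMap (rp e k) = P k e := by
  change [e].flatMap (rp e k) = P k e
  rw [List.flatMap_cons, List.flatMap_nil, List.append_nil]
  unfold rp
  rw [if_pos rfl]

theorem rp_word {e k : ℕ} {A C D : List ℕ} (hA : e ∉ A) (hC : e ∉ C) (hD : e ∉ D) :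
    (A ++ (P 1 e ++ (C ++ (P 1 e ++ D)))).flatMap (rp e k) = A ++ (P k e ++ (C ++ (P k e ++ D))) := by
  rw [List.flatMap_append, List.flatMap_append, List.flatMap_append, List.flatMap_append,
    rp_id hA, rp_id hC, rp_id hD, rp_one]

theorem pnt (hSWX : SwxStmt) (hSHW : ShwStmt) (hSTX : StxStmt) (hSTY : StyStmt) (hSTB : StbStmt)
    (hNW4 : Nw4Stmt) : PntStmt := by
  intro n β m R c S
  have hwo := S.wo
  obtain ⟨k1, k2, clx, cly⟩ := hSHW n β m R c S.wo S.cn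
  -- substitutions
  have sx : ∀ b, (Ww R c 1 b).flatMap (rp 0 (n + 1)) = Ww R c (n + 1) b := by
    intro b
    obtain ⟨⟨A, C, D, hA, hC, hD, h⟩, -⟩ := hSWX n m R c b S.pR S.cn
    rw [h 1, h (n + 1), rp_word hA hC hD]
  have sy : ∀ a, (Ww R c a 1).flatMap (rp 6 (n + 1)) = Ww R c a (n + 1) := by
    intro a
    obtain ⟨-, A, C, D, hA, hC, hD, h⟩ := hSWX n m R c a S.pR S.cn
    rw [h 1, h (n + 1), rp_word hA hC hD]
  obtain ⟨ρ, hρ, gρ, mρ, pρ⟩ := MVD.H32.gen β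
    (fun e => e = (Ww R c 1 (n + 1), Ww R c (n + 1) (n + 1)))
  obtain ⟨σ, hσ, gσ, mσ, pσ⟩ := MVD.H32.gen β (fun e => e = (Ww R c 1 1, Ww R c 1 (n + 1)))
  obtain ⟨τ, hτ, gτ, mτ, pτ⟩ := MVD.H32.gen β (fun e => e = (Ww R c 1 1, Ww R c (n + 1) 1))
  have t14 : RR τ (Ww R c 1 1) (Ww R c (n + 1) 1) := gτ _ rfl
  have s12 : RR σ (Ww R c 1 1) (Ww R c 1 (n + 1)) := gσ _ rfl
  have r23 : RR ρ (Ww R c 1 (n + 1)) (Ww R c (n + 1) (n + 1)) := gρ _ rfl
  have t23 : RR τ (Ww R c 1 (n + 1)) (Ww R c (n + 1) (n + 1)) := by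
    have h := t14.sub (rp 6 (n + 1))
    rw [sy, sy] at h
    exact h
  have s43 : RR σ (Ww R c (n + 1) 1) (Ww R c (n + 1) (n + 1)) := by
    have h := s12.sub (rp 0 (n + 1))
    rw [sx, sx] at h
    exact h
  have hle : ρ ≤ τ := mρ τ hτ (by
    rintro e rfl
    exact t23)
  -- invariance
  have kC : ∀ w w', RR τ w w' → Kx n β R c w → Kx n β R c w' := by
    apply pτ
    · exact clx
    · rintro e rfl φ M N
      exact ⟨hSTX n β m R c 1 (n + 1) M N φ S (Or.inl rfl) (Or.inr rfl),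
        hSTX n β m R c (n + 1) 1 M N φ S (Or.inr rfl) (Or.inl rfl)⟩
  have kB : ∀ w w', RR σ w w' → Ky n β R c w → Ky n β R c w' := by
    apply pσ
    · exact cly
    · rintro e rfl φ M N
      exact ⟨hSTY n β m R c 1 (n + 1) M N φ S (Or.inl rfl) (Or.inr rfl),
        hSTY n β m R c (n + 1) 1 M N φ S (Or.inr rfl) (Or.inl rfl)⟩
  have kA : ∀ w w', RR ρ w w' → (Kx n β R c w ∧ Ky n β R c w) →
      (Kx n β R c w' ∧ Ky n β R c w') := by
    apply pρ (fun w => Kx n β R c w ∧ Ky n β R c w)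
    · intro w w' h hw
      exact ⟨clx w w' h hw.1, cly w w' h hw.2⟩
    · rintro e rfl φ M N
      exact ⟨fun h => hSTB n β m R c 1 (n + 1) M N φ S (Or.inl rfl) (Or.inr rfl) h.1 h.2,
        fun h => hSTB n β m R c (n + 1) 1 M N φ S (Or.inr rfl) (Or.inl rfl) h.1 h.2⟩
  refine MVD.H21.pen β hwo.md ρ σ τ (fun w => Kx n β R c w ∧ Ky n β R c w) (Ky n β R c) (Kx n β R c)
    hρ hσ hτ hle kA kB kC (fun w h => ⟨h.2, h.1⟩) (fun w h h' => ⟨h', h⟩) (Ww R c 1 1)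
    (Ww R c (n + 1) 1) ⟨k1, k2⟩ (fun h => hNW4 n β m R c S h.2) t14 ?_
  exact (FIC.sup ρ σ).trans ((FIC.le_sup_right _ _) _ _ s12)
    ((FIC.sup ρ σ).trans ((FIC.le_sup_left _ _) _ _ r23) ((FIC.le_sup_right _ _) _ _ s43.symm))

end Pool.Agent.MWT.H79
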