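import Pool.Agent.Helper11_MWT.FUN2
import Pool.Agent.Helper10_MWT.PER
import Pool.Agent.Helper77_MWT.THX
import Pool.Agent.Helper27_MWT.PJB
import Pool.Agent.Helper52_MWT.PJL
import Pool.Agent.Helper1_MWT.KPJ
import Pool.Agent.Helper89_MWT.SHW
import Pool.Agent.Helper62_MWT.SPC
import Pool.Agent.Helper85_MWT.TG1
import Pool.Agent.Helper95_MWT.TG2
import Pool.Agent.Helper43_MWT.TGW
import Pool.Agent.Helper49_MWT.LWC
import Pool.Agent.Helper81_MWT.NLC
import Pool.Agent.Helper59_MWT.CTB
import Pool.Agent.Helper19_MWT.CVA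
import Pool.Agent.Helper28_MWT.CVB
import Pool.Agent.Helper2_MWT.NLF
import Pool.Agent.Helper73_MWT.CVC
import Pool.Agent.Helper50_MWT.CVD
import Pool.Agent.Helper15_MWT.CVE
import Pool.Agent.Helper61_MWT.CVR
import Pool.Agent.Helper30_MWT.CVL
import Pool.Agent.Helper34_MWT.CVX
import Pool.Agent.Helper26_MWT.CVY
import Pool.Agent.Helper19_MWT.SWX
import Pool.Agent.Helper36_MWT.NSL
import Pool.Agent.Helper47_MWT.PWX
import Pool.Agent.Helper80_MWT.STX
import Pool.Agent.Helper23_MWT.STY
import Pool.Agent.Helper23_MWT.STB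
import Pool.Agent.Helper92_MWT.NW4
import Pool.Agent.Helper79_MWT.PNT
import Pool.Agent.Helper96_MWV.Out2

/-!
# Thin runs: all rows of squad MWT (MP_23468a_al)

`pntT` : no situation `S7`, from TG3.  `it2T` : `It2 n` from TG3 and the heavy fill.
-/

set_option autoImplicit false

namespace Pool.Agent.MWT.H79

open Pool.Agent.MWT

/-- **The pentagon, all rows except TG3 plugged in.** -/
theorem pntT (tg3 : Tg3Stmt) : PntStmt := by
  have fn := H11.funT
  have per := H10.per
  have thx := H77.thx per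
  have pjb := H27.pjb
  have pjl := H52.pjl
  have kpj := H1.kpj
  have shw := H89.shw
  have tg1 := H85.tg1 per
  have tg2 := H95.tg2 fn thx pjb pjl per
  have tgw := H43.tgw tg1 tg2 tg3 per
  have lwc := H49.lwc
  have nlc := H81.nlc
  have ctb := H59.ctb
  have cva := H19.cva per lwc
  have cvb := H28.cvb per lwc cva
  have nlf := H2.nlf
  have cvc := H73.cvc nlc ctb nlf
  have cvd := H50.cvd cvc ctb
  have cve := H15.cve
  have cvr := H61.cvr cvc cvd ctb nlc nlf
  have cvl := H30.cvl cvc cvd ctb nlc nlf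
  have cvx := H34.cvx lwc cva cvb cvd cve cvr
  have cvy := H26.cvy lwc cva cvb cvd cve cvl
  have swx := H19.swx per
  have nsl := H36.nsl per lwc
  have pwx := H47.pwx swx
  have stx := H80.stx tgw kpj cvx swx nsl pwx
  have sty := H23.sty tgw kpj cvy swx nsl pwx
  have stb := H23.stb tgw kpj cvx swx nsl pwx
  have nw4 := H92.nw4 pjb pjl thx shw
  exact H79.pnt swx shw stx sty stb nw4

/-- **`It2 n` from TG3 and the heavy fill.** -/
theorem it2T {n : ℕ} (tg3 : Tg3Stmt) (hF : MWV.FilStmt) : Helper61_MWD.It2 n :=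
  Helper96_MWV.it2p (pntT tg3) hF

end Pool.Agent.MWT.H79
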